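import Pool.Agent.Helper97.PAS.Base

/-!
# Module U: Turing reducibility and the form with initial segments
-/

namespace H97.PAS

open Function

namespace Use

lemma seg_length (A : ℕ → ℕ) (s : ℕ) : (seg A s).length = s := by simp [seg]

/-- The partial version of the use form. -/
def PComp (A : ℕ → ℕ) (g : ℕ →. ℕ) : Prop :=
  ∃ Ψ : ℕ → List ℕ → ℕ, Computable₂ Ψ ∧
    (∀ x s y, Ψ x (seg A s) = y + 1 → y ∈ g x) ∧
    ∀ x y, y ∈ g x → ∃ s0, ∀ s, s0 ≤ s → Ψ x (seg A s) = y + 1

lemma PComp.total {A : ℕ → ℕ} {g : ℕ → ℕ} {h : ℕ →. ℕ} (hg : Computable g)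
    (hh : ∀ x, h x = Part.some (g x)) : PComp A h := by
  refine ⟨fun x _ => g x + 1, ?_, ?_, ?_⟩
  · exact (Computable.succ.comp (hg.comp Computable.fst)).to₂
  · intro x s y hy
    rw [hh]
    have : y = g x := by simpa using hy.symm
    simp [this]
  · intro x y hy
    rw [hh] at hy
    exact ⟨0, fun s _ => by simp [Part.mem_some_iff.1 hy]⟩

/-- State of the bounded search. -/
def srch (v : ℕ → ℕ) : ℕ → ℕ
  | 0 => 0
  | n + 1 => Nat.casesOn (srch v n) (Nat.casesOn (v n) 1 (fun w => Nat.casesOn w (n + 2) (fun _ => 0)))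
      (fun r => r + 1)

lemma srch_spec (v : ℕ → ℕ) (N : ℕ) :
    (srch v N = 0 → ∀ n < N, 2 ≤ v n) ∧
    ∀ k, srch v N = k + 2 → v k = 1 ∧ ∀ n < k, 2 ≤ v n := by
  induction N with
  | zero => exact ⟨fun _ n hn => absurd hn (Nat.not_lt_zero n), fun k hk => by simp [srch] at hk⟩
  | succ N ih =>
    obtain ⟨ih0, ih1⟩ := ih
    rcases h : srch v N with _ | r
    · rcases hv : v N with _ | w
      · constructor
        · intro h1; simp [srch, h, hv] at h1
        · intro k hk; simp [srch, h, hv] at hk
      · rcases w with _ | w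
        · constructor
          · intro h1; simp [srch, h, hv] at h1
          · intro k hk
            have hkN : N = k := by simpa [srch, h, hv] using hk
            subst hkN
            exact ⟨hv, ih0 h⟩
        · constructor
          · intro _ n hn
            rcases Nat.lt_succ_iff_lt_or_eq.1 hn with hn | rfl
            · exact ih0 h n hn
            · omega
          · intro k hk; simp [srch, h, hv] at hk
    · constructor
      · intro h1; simp [srch, h] at h1
      · intro k hk
        have : srch v N = k + 2 := by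
          rw [h]; simpa [srch, h] using hk
        exact ih1 k this

lemma srch_run (v : ℕ → ℕ) (y : ℕ) (hy : v y = 1) (hlt : ∀ n < y, 2 ≤ v n) (N : ℕ) :
    (N ≤ y → srch v N = 0) ∧ (y < N → srch v N = y + 2) := by
  induction N with
  | zero => exact ⟨fun _ => rfl, fun h => absurd h (Nat.not_lt_zero y)⟩
  | succ N ih =>
    obtain ⟨ih0, ih1⟩ := ih
    constructor
    · intro hN
      have h0 := ih0 (by omega)
      have h2 := hlt N (by omega)
      obtain ⟨w, hw⟩ : ∃ w, v N = w + 2 := ⟨v N - 2, by omega⟩
      simp [srch, h0, hw]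
    · intro hN
      rcases Nat.lt_succ_iff_lt_or_eq.1 hN with h | h
      · have := ih1 h
        simp [srch, this]
      · subst h
        simp [srch, ih0 le_rfl, hy]

lemma comp_oracle : Computable₂ (fun (x : ℕ) (σ : List ℕ) =>
    (Option.casesOn (σ[x]?) 0 (fun y => y + 1) : ℕ)) := by
  have h1 : Computable (fun q : ℕ × List ℕ => q.2[q.1]?) :=
    Primrec.list_getElem?.to_comp.comp Computable.snd Computable.fst
  have h2 : Computable₂ (fun (q : ℕ × List ℕ) (y : ℕ) => y + 1) :=
    (Computable.succ.comp Computable.snd).to₂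
  exact Computable.option_casesOn h1 (Computable.const 0) h2

/-- The value in the case of primitive recursion. -/
def precVal (F H : ℕ → List ℕ → ℕ) (a : ℕ) (σ : List ℕ) : ℕ → ℕ
  | 0 => F a σ
  | n + 1 => Nat.casesOn (precVal F H a σ n) 0 (fun i => H (Nat.pair a (Nat.pair n i)) σ)

lemma comp_pair {α : Type} [Primcodable α] {f g : α → ℕ} (hf : Computable f) (hg : Computable g) :
    Computable (fun a => Nat.pair (f a) (g a)) :=
  Primrec₂.natPair.to_comp.comp hf hg

lemma comp_prec {F H : ℕ → List ℕ → ℕ} (hF : Computable₂ F) (hH : Computable₂ H) :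
    Computable₂ (fun (p : ℕ) (σ : List ℕ) => precVal F H p.unpair.1 σ p.unpair.2) := by
  have e : ∀ (a : ℕ) (σ : List ℕ) (n : ℕ), precVal F H a σ n = Nat.rec (F a σ)
      (fun y r => (Nat.casesOn r 0 (fun i => H (Nat.pair a (Nat.pair y i)) σ) : ℕ)) n := by
    intro a σ n
    induction n with
    | zero => rfl
    | succ n ih => simp only [precVal]; rw [ih]
  have h1 : Computable (fun q : ℕ × List ℕ => q.1.unpair.2) :=
    Computable.snd.comp (Computable.unpair.comp Computable.fst)
  have h1' : Computable (fun q : ℕ × List ℕ => q.1.unpair.1) :=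
    Computable.fst.comp (Computable.unpair.comp Computable.fst)
  have h2 : Computable (fun q : ℕ × List ℕ => F q.1.unpair.1 q.2) :=
    hF.comp h1' Computable.snd
  have h3 : Computable₂ (fun (t : (ℕ × List ℕ) × (ℕ × ℕ)) (i : ℕ) =>
      H (Nat.pair t.1.1.unpair.1 (Nat.pair t.2.1 i)) t.1.2) := by
    have a1 : Computable (fun z : ((ℕ × List ℕ) × (ℕ × ℕ)) × ℕ => z.1.1.1.unpair.1) :=
      h1'.comp (Computable.fst.comp Computable.fst)
    have a2 : Computable (fun z : ((ℕ × List ℕ) × (ℕ × ℕ)) × ℕ => z.1.2.1) :=
      Computable.fst.comp (Computable.snd.comp Computable.fst)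
    have a3 : Computable (fun z : ((ℕ × List ℕ) × (ℕ × ℕ)) × ℕ => z.1.1.2) :=
      Computable.snd.comp (Computable.fst.comp Computable.fst)
    exact (hH.comp (comp_pair a1 (comp_pair a2 Computable.snd)) a3).to₂
  have h4 : Computable₂ (fun (q : ℕ × List ℕ) (t : ℕ × ℕ) =>
      (Nat.casesOn t.2 0 (fun i => H (Nat.pair q.1.unpair.1 (Nat.pair t.1 i)) q.2) : ℕ)) := by
    have a1 : Computable (fun z : (ℕ × List ℕ) × (ℕ × ℕ) => z.2.2) :=
      Computable.snd.comp Computable.snd
    exact (Computable.nat_casesOn a1 (Computable.const 0) h3).to₂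
  have h5 := Computable.nat_rec h1 h2 h4
  exact Computable.of_eq h5 (fun q => (e _ _ _).symm)

lemma comp_srch {F : ℕ → List ℕ → ℕ} (hF : Computable₂ F) :
    Computable (fun q : ℕ × List ℕ => srch (fun n => F (Nat.pair q.1 n) q.2) q.2.length) := by
  have hs : ∀ (v : ℕ → ℕ) (N : ℕ), srch v N = Nat.rec 0 (fun n r => (Nat.casesOn r
      (Nat.casesOn (v n) 1 (fun w => Nat.casesOn w (n + 2) (fun _ => 0))) (fun r => r + 1) : ℕ)) N := by
    intro v N
    induction N with
    | zero => rfl
    | succ N ih => simp only [srch]; rw [ih]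
  have h1 : Computable (fun q : ℕ × List ℕ => q.2.length) :=
    Computable.list_length.comp Computable.snd
  have h2 : Computable (fun z : (ℕ × List ℕ) × (ℕ × ℕ) => F (Nat.pair z.1.1 z.2.1) z.1.2) :=
    hF.comp (comp_pair (Computable.fst.comp Computable.fst) (Computable.fst.comp Computable.snd))
      (Computable.snd.comp Computable.fst)
  have h3 : Computable (fun z : ((ℕ × List ℕ) × (ℕ × ℕ)) × ℕ => z.1.2.1 + 2) :=
    Computable.succ.comp (Computable.succ.comp
      (Computable.fst.comp (Computable.snd.comp Computable.fst)))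
  have h4 : Computable₂ (fun (z : (ℕ × List ℕ) × (ℕ × ℕ)) (w : ℕ) =>
      (Nat.casesOn w (z.2.1 + 2) (fun _ => 0) : ℕ)) := by
    have h5 : Computable₂ (fun (_ : ((ℕ × List ℕ) × (ℕ × ℕ)) × ℕ) (_ : ℕ) => (0 : ℕ)) :=
      (Computable.const 0).to₂
    exact (Computable.nat_casesOn Computable.snd h3 h5).to₂
  have h6 : Computable (fun z : (ℕ × List ℕ) × (ℕ × ℕ) =>
      (Nat.casesOn (F (Nat.pair z.1.1 z.2.1) z.1.2) 1
        (fun w => Nat.casesOn w (z.2.1 + 2) (fun _ => 0)) : ℕ)) :=
    Computable.nat_casesOn h2 (Computable.const 1) h4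
  have h7 : Computable₂ (fun (q : ℕ × List ℕ) (t : ℕ × ℕ) =>
      (Nat.casesOn t.2 (Nat.casesOn (F (Nat.pair q.1 t.1) q.2) 1
        (fun w => Nat.casesOn w (t.1 + 2) (fun _ => 0))) (fun r => r + 1) : ℕ)) := by
    have h8 : Computable₂ (fun (_ : (ℕ × List ℕ) × (ℕ × ℕ)) (r : ℕ) => r + 1) :=
      (Computable.succ.comp Computable.snd).to₂
    exact (Computable.nat_casesOn (Computable.snd.comp Computable.snd) h6 h8).to₂
  exact Computable.of_eq (Computable.nat_rec h1 (Computable.const 0) h7) (fun q =>
    (hs (fun n => F (Nat.pair q.1 n) q.2) q.2.length).symm)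

theorem pcomp_of_recursiveIn {A : ℕ → ℕ} {g : ℕ →. ℕ}
    (hg : Nat.RecursiveIn {fun n => Part.some (A n)} g) : PComp A g := by
  induction hg with
  | zero => exact PComp.total (g := fun _ => 0) (Computable.const 0) (fun x => rfl)
  | succ => exact PComp.total (g := Nat.succ) Computable.succ (fun x => rfl)
  | left => exact PComp.total (g := fun n => n.unpair.1) (Computable.fst.comp Computable.unpair) (fun x => rfl)
  | right => exact PComp.total (g := fun n => n.unpair.2) (Computable.snd.comp Computable.unpair) (fun x => rfl)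
  | oracle g hg =>
    have hg' : g = fun n => Part.some (A n) := hg
    subst hg'
    refine ⟨fun x σ => Option.casesOn (σ[x]?) 0 (fun y => y + 1), ?_, ?_, ?_⟩
    · exact comp_oracle
    · intro x s y hy
      by_cases hx : x < s
      · have : (seg A s)[x]? = some (A x) := by
          simp [seg, hx]
        have hy' : y = A x := by simpa [this] using hy.symm
        simp [hy']
      · have : (seg A s)[x]? = none := by simp [seg, hx]
        simp [this] at hy
    · intro x y hy
      refine ⟨x + 1, fun s hs => ?_⟩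
      have : (seg A s)[x]? = some (A x) := by
        have : x < s := hs
        simp [seg, this]
      simp [this, Part.mem_some_iff.1 hy]
  | @pair f h _ _ ihf ihh =>
    obtain ⟨F, hF, hF1, hF2⟩ := ihf
    obtain ⟨H, hH, hH1, hH2⟩ := ihh
    refine ⟨fun x σ => Nat.casesOn (F x σ) 0 (fun u => Nat.casesOn (H x σ) 0 (fun v => Nat.pair u v + 1)), ?_, ?_, ?_⟩
    · unfold Computable₂
      refine Computable.nat_casesOn hF (Computable.const 0) ?_
      unfold Computable₂
      refine Computable.nat_casesOn (hH.comp (Computable.fst.comp Computable.fst) (Computable.snd.comp Computable.fst)) (Computable.const 0) ?_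
      unfold Computable₂
      exact Computable.succ.comp (Primrec₂.natPair.to_comp.comp (Computable.snd.comp Computable.fst) Computable.snd)
    · intro x s y hy
      rcases hf : F x (seg A s) with _ | u
      · simp [hf] at hy
      · rcases hh : H x (seg A s) with _ | v
        · simp [hf, hh] at hy
        · have hy' : y = Nat.pair u v := by simpa [hf, hh] using hy.symm
          have h1 := hF1 x s u hf
          have h2 := hH1 x s v hh
          simp only [Seq.seq, Part.map_eq_map]
          simp only [Part.mem_bind_iff, Part.mem_map_iff]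
          exact ⟨Nat.pair u, ⟨u, h1, rfl⟩, v, h2, hy'.symm⟩
    · intro x y hy
      simp only [Seq.seq, Part.map_eq_map, Part.mem_bind_iff, Part.mem_map_iff] at hy
      obtain ⟨_, ⟨u, hu, rfl⟩, v, hv, rfl⟩ := hy
      obtain ⟨s1, hs1⟩ := hF2 x u hu
      obtain ⟨s2, hs2⟩ := hH2 x v hv
      refine ⟨max s1 s2, fun s hs => ?_⟩
      simp [hs1 s (le_trans (le_max_left _ _) hs), hs2 s (le_trans (le_max_right _ _) hs)]
  | @comp f h _ _ ihf ihh =>
    obtain ⟨F, hF, hF1, hF2⟩ := ihf
    obtain ⟨H, hH, hH1, hH2⟩ := ihh
    refine ⟨fun x σ => Nat.casesOn (H x σ) 0 (fun v => F v σ), ?_, ?_, ?_⟩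
    · unfold Computable₂
      refine Computable.nat_casesOn hH (Computable.const 0) ?_
      exact (hF.comp Computable.snd (Computable.snd.comp Computable.fst)).to₂
    · intro x s y hy
      rcases hh : H x (seg A s) with _ | v
      · simp [hh] at hy
      · simp only [hh] at hy
        exact Part.mem_bind_iff.2 ⟨v, hH1 x s v hh, hF1 v s y hy⟩
    · intro x y hy
      obtain ⟨v, hv, hy⟩ := Part.mem_bind_iff.1 hy
      obtain ⟨s1, hs1⟩ := hF2 v y hy
      obtain ⟨s2, hs2⟩ := hH2 x v hv
      refine ⟨max s1 s2, fun s hs => ?_⟩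
      simp [hs1 s (le_trans (le_max_left _ _) hs), hs2 s (le_trans (le_max_right _ _) hs)]
  | @prec f h _ _ ihf ihh =>
    obtain ⟨F, hF, hF1, hF2⟩ := ihf
    obtain ⟨H, hH, hH1, hH2⟩ := ihh
    refine ⟨fun p σ => precVal F H p.unpair.1 σ p.unpair.2, comp_prec hF hH, ?_, ?_⟩
    · intro p s
      obtain ⟨a, n, rfl⟩ : ∃ a n, p = Nat.pair a n := ⟨p.unpair.1, p.unpair.2, by simp⟩
      simp only [Nat.unpair_pair]
      induction n with
      | zero => intro y hy; exact hF1 a s y hy
      | succ n ih =>
        intro y hy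
        rcases hr : precVal F H a (seg A s) n with _ | i
        · simp [precVal, hr] at hy
        · simp only [precVal, hr] at hy
          exact Part.mem_bind_iff.2 ⟨i, ih i hr, hH1 _ s y hy⟩
    · intro p
      obtain ⟨a, n, rfl⟩ : ∃ a n, p = Nat.pair a n := ⟨p.unpair.1, p.unpair.2, by simp⟩
      simp only [Nat.unpair_pair]
      induction n with
      | zero => intro y hy; exact hF2 a y hy
      | succ n ih =>
        intro y hy
        obtain ⟨i, hi, hy⟩ := Part.mem_bind_iff.1 hy
        obtain ⟨s1, hs1⟩ := ih i hi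
        obtain ⟨s2, hs2⟩ := hH2 _ y hy
        refine ⟨max s1 s2, fun s hs => ?_⟩
        have e1 := hs1 s (le_trans (le_max_left _ _) hs)
        have e2 := hs2 s (le_trans (le_max_right _ _) hs)
        simp only [precVal, e1]
        exact e2
  | @rfind f _ ihf =>
    obtain ⟨F, hF, hF1, hF2⟩ := ihf
    refine ⟨fun a σ => (srch (fun n => F (Nat.pair a n) σ) σ.length) - 1, ?_, ?_, ?_⟩
    · exact (Computable.pred.comp (comp_srch hF)).to₂
    · intro a s y hy
      have h2 : srch (fun n => F (Nat.pair a n) (seg A s)) (seg A s).length = y + 2 := by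
        simp only at hy; omega
      obtain ⟨h3, h4⟩ := (srch_spec _ _).2 y h2
      refine Nat.mem_rfind.2 ?_
      constructor
      · simp only [Part.map_eq_map, Part.mem_map_iff]
        exact ⟨0, hF1 _ s 0 h3, by simp⟩
      · intro m hm
        simp only [Part.map_eq_map, Part.mem_map_iff]
        have := h4 m hm
        refine ⟨F (Nat.pair a m) (seg A s) - 1, hF1 _ s _ ?_, ?_⟩
        · omega
        · simp only [decide_eq_false_iff_not]
          omega
    · intro a y hy
      obtain ⟨hy1, hy2⟩ := Nat.mem_rfind.1 hy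
      simp only [Part.map_eq_map, Part.mem_map_iff] at hy1
      obtain ⟨z, hz, hz0⟩ := hy1
      have hz0' : z = 0 := by simpa using hz0
      subst hz0'
      obtain ⟨s1, hs1⟩ := hF2 _ 0 hz
      have : ∀ m, m < y → ∃ w, w ≠ 0 ∧ w ∈ f (Nat.pair a m) := by
        intro m hm
        have := hy2 hm
        simp only [Part.map_eq_map, Part.mem_map_iff] at this
        obtain ⟨w, hw, hw0⟩ := this
        exact ⟨w, by simpa using hw0, hw⟩
      have : ∀ m, ∃ s0, m < y → ∀ s, s0 ≤ s → 2 ≤ F (Nat.pair a m) (seg A s) := by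
        intro m
        by_cases hm : m < y
        · obtain ⟨w, hw0, hw⟩ := this m hm
          obtain ⟨s0, hs0⟩ := hF2 _ w hw
          exact ⟨s0, fun _ s hs => by rw [hs0 s hs]; omega⟩
        · exact ⟨0, fun h => absurd h hm⟩
      choose S hS using this
      refine ⟨max (max s1 (y + 1)) ((Finset.range y).sup S), fun s hs => ?_⟩
      have e1 : s1 ≤ s := le_trans (le_trans (le_max_left _ _) (le_max_left _ _)) hs
      have e2 : y + 1 ≤ s := le_trans (le_trans (le_max_right _ _) (le_max_left _ _)) hs
      have e3 : ∀ m < y, S m ≤ s := fun m hm =>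
        le_trans (le_trans (Finset.le_sup (f := S) (Finset.mem_range.2 hm)) (le_max_right _ _)) hs
      have := (srch_run (fun n => F (Nat.pair a n) (seg A s)) y (hs1 s e1)
        (fun m hm => hS m hm s (e3 m hm)) (seg A s).length).2 (by rw [seg_length]; omega)
      simp only
      rw [this]
      rfl

end Use

open Use in
theorem turingReducible_iff_compFrom (f A : ℕ → ℕ) :
    TuringReducible (fun n => Part.some (f n)) (fun n => Part.some (A n)) ↔ CompFrom A f := by
  constructor
  · intro h
    have h' : Nat.RecursiveIn {fun n => Part.some (A n)} (fun n => Part.some (f n)) :=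
      RecursiveIn.iff_nat.1 h
    obtain ⟨Ψ, h1, h2, h3⟩ := pcomp_of_recursiveIn h'
    refine ⟨Ψ, h1, ?_, ?_⟩
    · intro x
      obtain ⟨s0, hs0⟩ := h3 x (f x) (by simp)
      exact ⟨s0, hs0 s0 le_rfl⟩
    · intro x s
      rcases hv : Ψ x (seg A s) with _ | v
      · exact Or.inl rfl
      · right
        have := h2 x s v hv
        rw [Part.mem_some_iff.1 this]
  · rintro ⟨Ψ, h1, h2, h3⟩
    apply RecursiveIn.iff_nat.2
    set O : Set (ℕ →. ℕ) := {fun n => Part.some (A n)} with hO
    have tot : ∀ g : ℕ → ℕ, Computable g → Nat.RecursiveIn O (fun n => Part.some (g n)) :=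
      fun g hg => Nat.Partrec.recursiveIn (Partrec.nat_iff.1 hg)
    have tcomp : ∀ g h : ℕ → ℕ, Nat.RecursiveIn O (fun n => Part.some (g n)) →
        Nat.RecursiveIn O (fun n => Part.some (h n)) → Nat.RecursiveIn O (fun n => Part.some (g (h n))) := by
      intro g h hg hh
      refine (Nat.RecursiveIn.comp hg hh).of_eq fun n => ?_
      simp
    have tpair : ∀ g h : ℕ → ℕ, Nat.RecursiveIn O (fun n => Part.some (g n)) →
        Nat.RecursiveIn O (fun n => Part.some (h n)) →
        Nat.RecursiveIn O (fun n => Part.some (Nat.pair (g n) (h n))) := by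
      intro g h hg hh
      refine (Nat.RecursiveIn.pair hg hh).of_eq fun n => ?_
      simp [Seq.seq]
    have tA : Nat.RecursiveIn O (fun n => Part.some (A n)) := .oracle _ rfl
    -- the encoded initial segments
    let K : ℕ → ℕ := fun z => Encodable.encode (((Encodable.decode z.unpair.1 : Option (List ℕ)).getD []) ++ [z.unpair.2])
    have hK : Computable K := by
      refine Computable.encode.comp ?_
      refine Computable.list_concat.comp ?_ (Computable.snd.comp Computable.unpair)
      exact Computable.option_getD (Computable.decode.comp (Computable.fst.comp Computable.unpair)) (Computable.const [])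
    have hE : Nat.RecursiveIn O (fun s => Part.some (Encodable.encode (seg A s))) := by
      have hh : Nat.RecursiveIn O (fun q : ℕ => Part.some (K (Nat.pair q.unpair.2.unpair.2 (A q.unpair.2.unpair.1)))) := by
        refine tcomp K _ (tot K hK) (tpair _ _ (tot _ ?_) (tcomp A _ tA (tot _ ?_)))
        · exact Computable.snd.comp (Computable.unpair.comp (Computable.snd.comp Computable.unpair))
        · exact Computable.fst.comp (Computable.unpair.comp (Computable.snd.comp Computable.unpair))
      have h0 : Nat.RecursiveIn O (fun _ : ℕ => Part.some (Encodable.encode ([] : List ℕ))) :=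
        tot _ (Computable.const _)
      have hp := Nat.RecursiveIn.prec h0 hh
      have hq := Nat.RecursiveIn.comp hp (tpair (fun _ => 0) (fun n => n) (tot _ (Computable.const 0)) (tot _ Computable.id))
      refine hq.of_eq fun s => ?_
      simp only [Part.bind_eq_bind, Part.bind_some, Nat.unpair_pair]
      induction s with
      | zero => simp [seg]
      | succ s ih =>
        simp only at ih ⊢
        rw [ih]
        simp [K, seg, List.range_succ]
    let D : ℕ → ℕ := fun z => Ψ z.unpair.1 ((Encodable.decode z.unpair.2 : Option (List ℕ)).getD [])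
    have hD : Computable D := by
      refine h1.comp (Computable.fst.comp Computable.unpair) ?_
      exact Computable.option_getD (Computable.decode.comp (Computable.snd.comp Computable.unpair)) (Computable.const [])
    have hG : Nat.RecursiveIn O (fun p : ℕ => Part.some (Ψ p.unpair.1 (seg A p.unpair.2))) := by
      have := tcomp D _ (tot D hD) (tpair (fun p => p.unpair.1) (fun p => Encodable.encode (seg A p.unpair.2))
        (tot _ (Computable.fst.comp Computable.unpair))
        (tcomp (fun s => Encodable.encode (seg A s)) _ hE (tot _ (Computable.snd.comp Computable.unpair))))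
      refine this.of_eq fun p => ?_
      simp [D]
    let w : ℕ →. ℕ := fun p => Part.some (1 - Ψ p.unpair.1 (seg A p.unpair.2))
    have hw : Nat.RecursiveIn O w :=
      tcomp (fun m => 1 - m) _ (tot _ (Primrec.nat_sub.comp (Primrec.const 1) Primrec.id).to_comp) hG
    have hR : Nat.RecursiveIn O (fun a => Nat.rfind fun n => (fun m => m = 0) <$> w (Nat.pair a n)) :=
      Nat.RecursiveIn.rfind hw
    have hfin := Nat.RecursiveIn.comp
      (tcomp (fun m => m - 1) _ (tot _ Computable.pred) hG) (Nat.RecursiveIn.pair (tot (fun n => n) Computable.id) hR)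
    refine hfin.of_eq fun x => ?_
    have hdom : ∃ n, n ∈ (Nat.rfind fun n => (fun m => m = 0) <$> w (Nat.pair x n)) := by
      obtain ⟨s, hs⟩ := h2 x
      have : ∃ s, Ψ x (seg A s) ≠ 0 := ⟨s, by omega⟩
      classical
      refine ⟨Nat.find this, Nat.mem_rfind.2 ?_⟩
      constructor
      · have h := Nat.find_spec this
        refine (Part.mem_map_iff _).2 ⟨_, Part.mem_some _, ?_⟩
        simp only [Nat.unpair_pair, decide_eq_true_eq]
        omega
      · intro m hm
        have h := Nat.find_min this hm
        refine (Part.mem_map_iff _).2 ⟨_, Part.mem_some _, ?_⟩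
        simp only [Nat.unpair_pair, decide_eq_false_iff_not]
        omega
    obtain ⟨n, hn⟩ := hdom
    have hn1 := (Nat.mem_rfind.1 hn).1
    obtain ⟨z, hz, hz0⟩ := (Part.mem_map_iff _).1 hn1
    have hval : Ψ x (seg A n) = f x + 1 := by
      rcases h3 x n with h | h
      · have hz' : z = 1 - Ψ x (seg A n) := by simpa [w] using hz
        have : z = 0 := by simpa using hz0
        omega
      · exact h
    rw [Part.eq_some_iff]
    simp only [Part.bind_eq_bind, Seq.seq, Part.map_eq_map, Part.map_some, Part.bind_some]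
    refine Part.mem_bind_iff.2 ⟨Nat.pair x n, ?_, ?_⟩
    · exact (Part.mem_map_iff _).2 ⟨n, hn, rfl⟩
    · simp [hval]

end H97.PAS
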